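import Mathlib
import Pool.Agent.H447R2.ML.R6
import Pool.Agent.H447R2.ML.Spec

set_option autoImplicit false

/-!
# The generalised Lenstra-Pomerance-Wagstaff constant with the pair `(a, b)` fixed

Let `a, b` be coprime integers with `a > 1` and `-a < b < a`.  For real `β > 0` and a prime `p` let
`W a b β p` be the `p`-rough part (the product, with multiplicity, of the prime factors larger than
`p`) of the integer part of `β a ^ p - b ^ p / (a - b)`.  At `β = 1 / (a - b)` this is
`M_p(a, b) = (a ^ p - b ^ p) / (a - b)` itself, for every prime `p` that does not divide `a - b`.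
Let `N a b β y` be the number of primes `p ≤ y` with `W a b β p` prime.  For every fixed pair we
prove that the mean of `N a b β y` over every window of amplitudes `β` is asymptotic to
`e ^ γ log y / log a`, and that for almost every `β > 0` we have
`liminf N a b β y / log y ≤ e ^ γ / log a ≤ limsup N a b β y / log y`.
-/

namespace Pool.Agent.Results.MP_de9007_nt.FixedBase

open Filter Topology MeasureTheory

/-- The product, with multiplicity, of the prime factors of `m` that are larger than `p`. -/
def roughPart (p m : ℕ) : ℕ := (m.primeFactorsList.filter (fun r => p < r)).prod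

/-- The `p`-rough part of the integer part of `β * a ^ p - b ^ p / (a - b)`. -/
noncomputable def W (a b : ℤ) (β : ℝ) (p : ℕ) : ℕ :=
  roughPart p ⌊β * (a : ℝ) ^ p - (b : ℝ) ^ p / ((a : ℝ) - b)⌋₊

/-- The number of primes `p ≤ y` for which `W a b β p` is prime. -/
noncomputable def N (a b : ℤ) (β : ℝ) (y : ℕ) : ℕ :=
  ((Finset.range (y + 1)).filter (fun p => p.Prime ∧ (W a b β p).Prime)).card

/-- The values at `β = 1 / (a - b)`, the mean of the counting function over the amplitudes and the
almost everywhere statement, for every fixed pair `(a, b)`. -/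
theorem result (a b : ℤ) (hab : IsCoprime a b) (ha : 1 < a) (h1 : -a < b) (h2 : b < a) :
    (∀ p : ℕ, p.Prime → ¬ (p : ℤ) ∣ a - b →
      ((W a b (1 / ((a : ℝ) - b)) p : ℕ) : ℤ) = (a ^ p - b ^ p) / (a - b)) ∧
    (∀ s t : ℝ, s < t → Tendsto (fun y : ℕ =>
        (∫ u in s..t, (N a b (Real.exp u) y : ℝ)) / ((t - s) * Real.log y)) atTop
        (𝓝 (Real.exp Real.eulerMascheroniConstant / Real.log a))) ∧
    (∀ᵐ β : ℝ, 0 < β →
      (∀ c : ℝ, c < Real.exp Real.eulerMascheroniConstant / Real.log a →
        ∃ᶠ y : ℕ in atTop, c * Real.log y < N a b β y) ∧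
      (∀ c : ℝ, Real.exp Real.eulerMascheroniConstant / Real.log a < c →
        ∃ᶠ y : ℕ in atTop, (N a b β y : ℝ) < c * Real.log y)) := by
  have ha' : (1 : ℝ) < a := by exact_mod_cast ha
  have hd0 : (0 : ℝ) < (a : ℝ) - b := by
    have : (b : ℝ) < a := by exact_mod_cast h2
    linarith
  have hba : |(b : ℝ)| < a := by
    rw [abs_lt]
    constructor
    · have : -(a : ℝ) < b := by exact_mod_cast h1
      exact this
    · exact_mod_cast h2
  have key := Pool.Agent.H447R2.ML.shift_floor (α := a) (κ := |(b : ℝ)|) (C := 1 / ((a : ℝ) - b))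
    (g := fun p => -((b : ℝ) ^ p / ((a : ℝ) - b))) ha' (abs_nonneg _) hba (by
      intro p
      rw [abs_neg, abs_div, abs_pow, abs_of_pos hd0]
      apply le_of_eq
      ring)
  refine ⟨?_, key⟩
  intro p hp hd
  have h3 := Pool.Agent.H447R2.ML.rough_quot hab h1 h2 hp hd (x := 1 / ((a : ℝ) - b) *
    (a : ℝ) ^ p - (b : ℝ) ^ p / ((a : ℝ) - b)) rfl
  have h4 : ((W a b (1 / ((a : ℝ) - b)) p : ℕ) : ℤ) =
      ∑ i ∈ Finset.range p, a ^ i * b ^ (p - 1 - i) := h3
  rw [h4, eq_comm]
  have hgeom : (∑ i ∈ Finset.range p, a ^ i * b ^ (p - 1 - i)) * (a - b) = a ^ p - b ^ p :=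
    (Commute.all a b).geom_sum₂_mul p
  rw [← hgeom]
  exact Int.mul_ediv_cancel _ (by omega)

end Pool.Agent.Results.MP_de9007_nt.FixedBase
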