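import Mathlib
import Pool.Agent.H937.LocalAB

set_option autoImplicit false

/-!
# The generalized Lenstra–Pomerance–Wagstaff law in the mean over real bases near `a`
-/

namespace Pool.Agent.Results.MP_de9007_nt.LocalBases

open Filter Topology MeasureTheory

/-- The product, with multiplicity, of the prime factors of `m` that are larger than `p`. -/
def roughPart (p m : ℕ) : ℕ := (m.primeFactorsList.filter (fun r => p < r)).prod

/-- The `p`-rough part of the integer part of `(x ^ p - b ^ p) / (a - b)`. -/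
noncomputable def W (a b : ℤ) (x : ℝ) (p : ℕ) : ℕ :=
  roughPart p ⌊(x ^ p - (b : ℝ) ^ p) / ((a : ℝ) - b)⌋₊

/-- The number of primes `p ≤ n` for which `W a b x p` is prime. -/
noncomputable def N (a b : ℤ) (x : ℝ) (n : ℕ) : ℕ :=
  ((Finset.range (n + 1)).filter (fun p => p.Prime ∧ (W a b x p).Prime)).card

/-- The generalized law near the base `a`, for every coprime pair. -/
theorem result (a b : ℤ) (ha : 2 ≤ a) (hab : IsCoprime a b) (h1 : -a < b) (h2 : b < a) :
    (∀ p : ℕ, p.Prime → ¬ (p : ℤ) ∣ a - b →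
      ((W a b a p : ℕ) : ℤ) * (a - b) = a ^ p - b ^ p) ∧
    (∀ u v : ℕ → ℝ, Tendsto u atTop (𝓝 (Real.log a)) → Tendsto v atTop (𝓝 (Real.log a)) →
      (∀ p, u p < v p) → Tendsto (fun p : ℕ => (p : ℝ) * (v p - u p)) atTop atTop →
      Tendsto (fun p : ℕ =>
        (volume {τ : ℝ | τ ∈ Set.Ioc (u p) (v p) ∧ (W a b (Real.exp τ) p).Prime}).toReal /
          (v p - u p) * (p / Real.log p)) atTop
        (𝓝 (Real.exp Real.eulerMascheroniConstant / Real.log a))) ∧
    (∀ u v : ℕ → ℝ, Tendsto u atTop (𝓝 (Real.log a)) → Tendsto v atTop (𝓝 (Real.log a)) →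
      (∀ n, u n < v n) → Tendsto (fun n : ℕ => (v n - u n) * Real.log n) atTop atTop →
      Tendsto (fun n : ℕ => (∫ τ in (u n)..(v n), (N a b (Real.exp τ) n : ℝ)) /
        ((v n - u n) * Real.log n)) atTop
        (𝓝 (Real.exp Real.eulerMascheroniConstant / Real.log a))) := by
  refine ⟨fun p hp hpd => ?_, fun u v hu hv huv hw => ?_, fun u v hu hv huv hw => ?_⟩
  · have h := Pool.Agent.H937.W_special hab h1 h2 hp hpd
    have h4 : ((W a b a p : ℕ) : ℤ) = ∑ i ∈ Finset.range p, a ^ i * b ^ (p - 1 - i) := h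
    rw [h4]
    exact (Commute.all a b).geom_sum₂_mul p
  · exact Pool.Agent.H937.local_AB h2 (Pool.Agent.H937.kap_lt ha h1 h2) hu hv huv hw
  · exact Pool.Agent.H937.mean_AB h2 (Pool.Agent.H937.kap_lt ha h1 h2) hu hv huv hw

end Pool.Agent.Results.MP_de9007_nt.LocalBases
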