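import Mathlib
import Pool.Agent.H447R2.ML.Spec

set_option autoImplicit false

/-!
# A metric form of the generalised Lenstra-Pomerance-Wagstaff law

Let `a, b` be coprime integers with `a > 1` and `-a < b < a`.  For real `α > |b|`, `β > 0` and a
prime `p` let `W a b α β p` be the `p`-rough part (the product, with multiplicity, of the prime
factors larger than `p`) of the integer part of `β α ^ p - b ^ p / (a - b)`.  At the point
`(α, β) = (a, 1 / (a - b))` this is `M_p(a, b) = (a ^ p - b ^ p) / (a - b)` itself, for every prime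
`p` that does not divide `a - b`.  We prove that for almost every `(α, β)` the number of primes
`p ≤ y` with `W a b α β p` prime is asymptotic to `e ^ γ log y / log α`.
-/

namespace Pool.Agent.Results.MP_de9007_nt.MetricLaw

open Filter Topology MeasureTheory

/-- The product, with multiplicity, of the prime factors of `m` that are larger than `p`. -/
def roughPart (p m : ℕ) : ℕ := (m.primeFactorsList.filter (fun r => p < r)).prod

/-- The `p`-rough part of the integer part of `β * α ^ p - b ^ p / (a - b)`. -/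
noncomputable def W (a b : ℤ) (α β : ℝ) (p : ℕ) : ℕ :=
  roughPart p ⌊β * α ^ p - (b : ℝ) ^ p / ((a : ℝ) - b)⌋₊

/-- The number of primes `p ≤ y` for which `W a b α β p` is prime. -/
noncomputable def N (a b : ℤ) (α β : ℝ) (y : ℕ) : ℕ :=
  ((Finset.range (y + 1)).filter (fun p => p.Prime ∧ (W a b α β p).Prime)).card

/-- The metric law, together with the identification of the point `(a, 1 / (a - b))`. -/
theorem result (a b : ℤ) (hab : IsCoprime a b) (ha : 1 < a) (h1 : -a < b) (h2 : b < a) :
    (∀ p : ℕ, p.Prime → ¬ (p : ℤ) ∣ a - b →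
      ((W a b a (1 / ((a : ℝ) - b)) p : ℕ) : ℤ) = (a ^ p - b ^ p) / (a - b)) ∧
    (∀ᵐ z : ℝ × ℝ, |(b : ℝ)| < z.1 → 0 < z.2 →
      Tendsto (fun y : ℕ => (N a b z.1 z.2 y : ℝ) / Real.log (y : ℝ)) atTop
        (𝓝 (Real.exp Real.eulerMascheroniConstant / Real.log z.1))) := by
  constructor
  · intro p hp hd
    have h3 := Pool.Agent.H447R2.ML.rough_quot hab h1 h2 hp hd (x := 1 / ((a : ℝ) - b) *
      (a : ℝ) ^ p - (b : ℝ) ^ p / ((a : ℝ) - b)) rfl
    have h4 : ((W a b a (1 / ((a : ℝ) - b)) p : ℕ) : ℤ) =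
        ∑ i ∈ Finset.range p, a ^ i * b ^ (p - 1 - i) := h3
    rw [h4, eq_comm]
    have hgeom : (∑ i ∈ Finset.range p, a ^ i * b ^ (p - 1 - i)) * (a - b) = a ^ p - b ^ p :=
      (Commute.all a b).geom_sum₂_mul p
    rw [← hgeom]
    exact Int.mul_ediv_cancel _ (by omega)
  · have hb0 : b ≠ 0 := by
      rintro rfl
      rw [isCoprime_zero_right, Int.isUnit_iff] at hab
      omega
    have hb1 : (1 : ℝ) ≤ |(b : ℝ)| := by
      have : 1 ≤ |b| := Int.one_le_abs hb0
      exact_mod_cast this
    have hd0 : (0 : ℝ) < (a : ℝ) - b := by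
      have : (b : ℝ) < a := by exact_mod_cast h2
      linarith
    refine Pool.Agent.H447R2.ML.law (g := fun p => -((b : ℝ) ^ p / ((a : ℝ) - b)))
      (κ := |(b : ℝ)|) (C := 1 / ((a : ℝ) - b)) hb1 ?_
    intro p
    rw [abs_neg, abs_div, abs_pow, abs_of_pos hd0]
    apply le_of_eq
    ring

end Pool.Agent.Results.MP_de9007_nt.MetricLaw
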